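import Pool.Agent.Q94.SB.Main

set_option autoImplicit false

/-!
The lower bound for all finite groups with a tuple.
-/

namespace Pool.Agent.Q94.SB

open Subgroup Equiv
open scoped commutatorElement

variable {b : ℕ} {G : Type} [Group G]

/-- the image of a tuple under a surjective homomorphism -/
def Tup.map {H : Type} [Group H] (T : Tup b G) (f : G →* H) (hf : Function.Surjective f) :
    Tup b H where
  a := fun j => f (T.a j)
  t := fun j => f (T.t j)
  c := fun j => f (T.c j)
  d := fun j => f (T.d j)
  z := f T.z
  ac := fun j k h => by rw [← map_commutatorElement, T.ac j k h, map_one]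
  ac0 := fun j => by rw [← map_commutatorElement, T.ac0 j, map_one]
  ac' := fun j k h => by rw [← map_commutatorElement, T.ac' j k h]; simp only [map_mul, map_inv]
  ad := fun j k h => by rw [← map_commutatorElement, T.ad j k h, map_one]
  ad0 := fun j => by rw [← map_commutatorElement, T.ad0 j, map_inv]
  ad' := fun j k h => by
    rw [← map_commutatorElement, T.ad' j k h, map_commutatorElement, map_inv]
  az := fun j => by rw [← map_commutatorElement, T.az j, map_commutatorElement, map_inv]
  tc := fun j k h => by rw [← map_commutatorElement, T.tc j k h, map_one]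
  tc0 := fun j => by rw [← map_commutatorElement, T.tc0 j]; simp only [map_mul, map_inv]
  tc' := fun j k h => by
    rw [← map_commutatorElement, T.tc' j k h, map_commutatorElement, map_inv]
  td := fun j k h => by rw [← map_commutatorElement, T.td j k h, map_one]
  td0 := fun j => by rw [← map_commutatorElement, T.td0 j, map_commutatorElement, map_inv]
  td' := fun j k h => by rw [← map_commutatorElement, T.td' j k h]; simp only [map_mul, map_inv]
  tz := fun j => by rw [← map_commutatorElement, T.tz j, map_commutatorElement, map_inv]
  gen := by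
    rw [eq_top_iff]
    intro h _
    obtain ⟨g, rfl⟩ := hf h
    have key : g ∈ Subgroup.comap f (Subgroup.closure (Set.range (fun j => f (T.a j)) ∪
        Set.range (fun j => f (T.t j)) ∪
        Set.range (fun j => f (T.c j)) ∪ Set.range (fun j => f (T.d j)))) := by
      refine T.all_mem _ (fun j => ?_) (fun j => ?_) (fun j => ?_) (fun j => ?_) g
      · exact Subgroup.subset_closure (Or.inl (Or.inl (Or.inl ⟨j, rfl⟩)))
      · exact Subgroup.subset_closure (Or.inl (Or.inl (Or.inr ⟨j, rfl⟩)))
      · exact Subgroup.subset_closure (Or.inl (Or.inr ⟨j, rfl⟩))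
      · exact Subgroup.subset_closure (Or.inr ⟨j, rfl⟩)
    exact key

theorem lower (hb : 2 ≤ b) : ∀ (n : ℕ) (G : Type) [Group G] [Finite G] (T : Tup b G),
    Nat.card G = n → T.z ≠ 1 → 2 * 4 ^ b ≤ n := by
  intro n
  induction n using Nat.strong_induction_on with
  | _ n ih =>
    intro G _ _ T hn hz
    have h24 : 2 * 4 ^ b = 2 ^ (2 * b + 1) := by
      rw [pow_succ, pow_mul]; norm_num [mul_comm]
    by_cases mono : ∀ N : Subgroup G, N.Normal → N ≠ ⊥ → T.z ∈ N
    · by_cases h0 : T.C 0 = ⊥
      · have hQ := T.Q_chain hz h0 b le_rfl
        rw [T.C_top, Subgroup.card_top, hn] at hQ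
        rcases hQ with h | h | ⟨-, h⟩
        · rw [h24]; exact h
        · exfalso
          haveI : Fact (Nat.Prime 2) := ⟨Nat.prime_two⟩
          have hp : IsPGroup 2 G := IsPGroup.of_card (hn.trans h)
          have hnt : Nontrivial G := ⟨T.z, 1, hz⟩
          have hc := hp.center_nontrivial
          obtain ⟨x, hx⟩ := exists_ne (1 : center G)
          apply hx
          have hxC : (x : G) ∈ T.C 0 := by
            rw [T.mem_C]
            intro k _
            exact ⟨Subgroup.mem_center_iff.1 x.2 _, Subgroup.mem_center_iff.1 x.2 _⟩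
          rw [h0, Subgroup.mem_bot] at hxC
          exact Subtype.ext hxC
        · rw [← hn]
          exact T.case3 hb hz mono h0 (hn.trans h)
      · have h1 := T.chain hz 0 b (by omega)
        rw [zero_add, T.C_top, Subgroup.card_top, hn] at h1
        have h2 : 1 < Nat.card (T.C 0) := (Subgroup.one_lt_card_iff_ne_bot _).2 h0
        calc 2 * 4 ^ b = 4 ^ b * 2 := by ring
          _ ≤ 4 ^ b * Nat.card (T.C 0) := Nat.mul_le_mul_left _ h2
          _ ≤ n := h1
    · push Not at mono
      obtain ⟨N, hN, hNe, hzN⟩ := mono
      have h1 : 1 < Nat.card N := (Subgroup.one_lt_card_iff_ne_bot _).2 hNe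
      have h2 : Nat.card G = Nat.card (G ⧸ N) * Nat.card N :=
        Subgroup.card_eq_card_quotient_mul_card_subgroup N
      have h3 : 0 < Nat.card (G ⧸ N) := Nat.card_pos
      have hlt : Nat.card (G ⧸ N) < n := by rw [← hn, h2]; nlinarith
      have h4 := ih _ hlt (G ⧸ N) (T.map (QuotientGroup.mk' N) (QuotientGroup.mk'_surjective N)) rfl
        (by
          intro h
          apply hzN
          exact (QuotientGroup.eq_one_iff T.z).1 h)
      omega

end Pool.Agent.Q94.SB
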