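import Pool.Agent.Q94.SB.Lower

set_option autoImplicit false

/-!
The case of a group of order `3 * 2 ^ m`.
-/

namespace Pool.Agent.Q94.SB

open Subgroup Equiv
open scoped commutatorElement

lemma perm_aux1 : ∀ p q : Perm (Fin 3), Perm.sign p ≠ 1 → p * q = q * p → q = 1 ∨ q = p := by
  decide

lemma perm_aux2 : ∀ p q : Perm (Fin 3), Perm.sign p = 1 → Perm.sign q = 1 → p ≠ 1 →
    q = 1 ∨ q = p ∨ q = p * p := by
  decide

lemma perm_aux3 : ∀ p : Perm (Fin 3), Perm.sign p ≠ 1 → p * p = 1 := by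
  decide

lemma signs (X Y : Set (Perm (Fin 3))) (hc : ∀ p ∈ X, ∀ q ∈ Y, p * q = q * p)
    (hX : ∃ p ∈ X, p ≠ 1) (hY : ∃ q ∈ Y, q ≠ 1) :
    (∀ p ∈ X ∪ Y, Perm.sign p = 1) ∨ ∃ p : Perm (Fin 3), p * p = 1 ∧ ∀ q ∈ X ∪ Y, q = 1 ∨ q = p := by
  obtain ⟨x0, hx0, hx1⟩ := hX
  obtain ⟨y0, hy0, hy1⟩ := hY
  by_cases h : ∀ p ∈ X ∪ Y, Perm.sign p = 1
  · exact Or.inl h
  · right
    push Not at h
    obtain ⟨p, hp, hs⟩ := h
    refine ⟨p, perm_aux3 p hs, ?_⟩
    rcases hp with hp | hp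
    · have h1 : ∀ q ∈ Y, q = 1 ∨ q = p := fun q hq => perm_aux1 p q hs (hc p hp q hq)
      have h2 : y0 = p := (h1 y0 hy0).resolve_left hy1
      intro q hq
      rcases hq with hq | hq
      · exact perm_aux1 p q hs (by rw [← h2]; exact (hc q hq y0 hy0).symm)
      · exact h1 q hq
    · have h1 : ∀ q ∈ X, q = 1 ∨ q = p := fun q hq => perm_aux1 p q hs ((hc q hq p hp).symm)
      have h2 : x0 = p := (h1 x0 hx0).resolve_left hx1
      intro q hq
      rcases hq with hq | hq
      · exact h1 q hq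
      · exact perm_aux1 p q hs (by rw [← h2]; exact hc x0 hx0 q hq)

variable {b : ℕ} {G : Type} [Group G] [Finite G]

/-- a group of order `3 * 2 ^ m`, `m ≥ 2`, acts on three points with kernel a nontrivial `2`-group -/
lemma exists_hom (m : ℕ) (hm : 2 ≤ m) (hcard : Nat.card G = 3 * 2 ^ m) :
    ∃ f : G →* Perm (Fin 3), IsPGroup 2 f.ker ∧ f.ker ≠ ⊥ := by
  haveI : Fact (Nat.Prime 2) := ⟨Nat.prime_two⟩
  let S : Sylow 2 G := default
  have hS : Nat.card S = 2 ^ m := by
    rw [S.card_eq_multiplicity, hcard]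
    congr 1
    rw [Nat.factorization_mul (by norm_num) (by positivity), Nat.factorization_pow]
    simp [Nat.Prime.factorization, Nat.prime_three, Nat.prime_two]
  have hi : (S : Subgroup G).index = 3 := by
    have h := (S : Subgroup G).card_mul_index
    have h2 : Nat.card (S : Subgroup G) = 2 ^ m := hS
    rw [h2, hcard, mul_comm 3] at h
    exact Nat.eq_of_mul_eq_mul_left (by positivity) h
  have hcq : Nat.card (G ⧸ (S : Subgroup G)) = 3 := hi
  let e : (G ⧸ (S : Subgroup G)) ≃ Fin 3 := Finite.equivFinOfCardEq hcq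
  let f : G →* Perm (Fin 3) :=
    (e.permCongrHom.toMonoidHom).comp (MulAction.toPermHom G (G ⧸ (S : Subgroup G)))
  have hker : f.ker = (S : Subgroup G).normalCore := by
    rw [Subgroup.normalCore_eq_ker]
    ext g
    rw [MonoidHom.mem_ker, MonoidHom.mem_ker]
    show e.permCongrHom (MulAction.toPermHom G (G ⧸ (S : Subgroup G)) g) = 1 ↔ _
    exact MulEquiv.map_eq_one_iff _
  refine ⟨f, ?_, ?_⟩
  · rw [hker]
    exact S.isPGroup'.to_le (Subgroup.normalCore_le _)
  · intro hb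
    have hinj : Function.Injective f := (MonoidHom.ker_eq_bot_iff f).1 hb
    have h1 := Nat.card_le_card_of_injective f hinj
    have h2 : Nat.card (Perm (Fin 3)) = 6 := by
      rw [Nat.card_eq_fintype_card]; decide
    rw [h2, hcard] at h1
    have h3 : 2 ^ 2 ≤ 2 ^ m := Nat.pow_le_pow_right (by norm_num) hm
    omega

/-- the elements of order at most two of the centre of `O` -/
def WW (O : Subgroup G) : Subgroup G where
  carrier := {w | w ∈ O ∧ (∀ o ∈ O, o * w = w * o) ∧ w * w = 1}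
  one_mem' := ⟨O.one_mem, fun o _ => by simp, by simp⟩
  mul_mem' := by
    rintro x y ⟨hx, hx1, hx2⟩ ⟨hy, hy1, hy2⟩
    refine ⟨O.mul_mem hx hy, fun o ho => ?_, ?_⟩
    · rw [← mul_assoc, hx1 o ho, mul_assoc, hy1 o ho, mul_assoc]
    · have h := hx1 y hy
      calc x * y * (x * y) = x * (y * x) * y := by group
        _ = x * (x * y) * y := by rw [h]
        _ = (x * x) * (y * y) := by group
        _ = 1 := by rw [hx2, hy2, one_mul]
  inv_mem' := by
    rintro x ⟨hx, hx1, hx2⟩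
    have h : x⁻¹ = x := inv_eq_of_mul_eq_one_left hx2
    rw [h]; exact ⟨hx, hx1, hx2⟩

omit [Finite G] in
lemma mem_WW (O : Subgroup G) (w : G) :
    w ∈ WW O ↔ w ∈ O ∧ (∀ o ∈ O, o * w = w * o) ∧ w * w = 1 := Iff.rfl

omit [Finite G] in
lemma WW_normal (O : Subgroup G) (hO : O.Normal) : (WW O).Normal := by
  constructor
  rintro w ⟨h1, h2, h3⟩ g
  refine ⟨hO.conj_mem w h1 g, fun o ho => ?_, ?_⟩
  · have h4 : g⁻¹ * o * g ∈ O := by
      have := hO.conj_mem o ho g⁻¹
      simpa using this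
    have h5 := h2 _ h4
    calc o * (g * w * g⁻¹) = g * ((g⁻¹ * o * g) * w) * g⁻¹ := by group
      _ = g * (w * (g⁻¹ * o * g)) * g⁻¹ := by rw [h5]
      _ = g * w * g⁻¹ * o := by group
  · calc g * w * g⁻¹ * (g * w * g⁻¹) = g * (w * w) * g⁻¹ := by group
      _ = 1 := by rw [h3]; group

lemma WW_ne_bot (O : Subgroup G) (hp : IsPGroup 2 O) (hne : O ≠ ⊥) : WW O ≠ ⊥ := by
  haveI : Fact (Nat.Prime 2) := ⟨Nat.prime_two⟩
  haveI : Nontrivial O := (Subgroup.nontrivial_iff_ne_bot O).2 hne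
  haveI := hp.center_nontrivial
  have hpc : IsPGroup 2 (center O) := hp.to_subgroup _
  obtain ⟨n, hn⟩ := IsPGroup.iff_card.1 hpc
  have hn0 : n ≠ 0 := by
    rintro rfl
    rw [pow_zero] at hn
    have := Finite.one_lt_card (α := center O)
    omega
  have hdvd : 2 ∣ Nat.card (center O) := by rw [hn]; exact dvd_pow_self 2 hn0
  obtain ⟨x, hx⟩ := exists_prime_orderOf_dvd_card' 2 hdvd
  intro hbot
  have hxx : x * x = 1 := by
    have := pow_orderOf_eq_one x
    rw [hx, pow_two] at this; exact this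
  have hx1 : x ≠ 1 := by
    rintro rfl
    rw [orderOf_one] at hx; omega
  have hmem : ((x : O) : G) ∈ WW O := by
    refine ⟨(x : O).2, fun o ho => ?_, ?_⟩
    · have := (Subgroup.mem_center_iff.1 x.2) ⟨o, ho⟩
      exact congrArg (fun y : O => (y : G)) this
    · have := congrArg (fun y : center O => ((y : O) : G)) hxx
      simpa using this
  rw [hbot, Subgroup.mem_bot] at hmem
  apply hx1
  ext
  simpa using hmem

end Pool.Agent.Q94.SB
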