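import Mathlib

set_option autoImplicit false

/-!
The Heisenberg group of order `2 ^ (2 b + 1)` over the field with two elements.
-/

namespace Pool.Agent.Q94.SB

open Matrix
open scoped commutatorElement

/-- triples `(x, y, s)` -/
@[ext] structure Heis (b : ℕ) where
  x : Fin b → ZMod 2
  y : Fin b → ZMod 2
  s : ZMod 2

variable {b : ℕ}

instance : Mul (Heis b) := ⟨fun g h => ⟨g.x + h.x, g.y + h.y, g.s + h.s + g.x ⬝ᵥ h.y⟩⟩
instance : One (Heis b) := ⟨⟨0, 0, 0⟩⟩
instance : Inv (Heis b) := ⟨fun g => ⟨-g.x, -g.y, -g.s + g.x ⬝ᵥ g.y⟩⟩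

@[simp] lemma mul_x (g h : Heis b) : (g * h).x = g.x + h.x := rfl
@[simp] lemma mul_y (g h : Heis b) : (g * h).y = g.y + h.y := rfl
@[simp] lemma mul_s (g h : Heis b) : (g * h).s = g.s + h.s + g.x ⬝ᵥ h.y := rfl
@[simp] lemma one_x : (1 : Heis b).x = 0 := rfl
@[simp] lemma one_y : (1 : Heis b).y = 0 := rfl
@[simp] lemma one_s : (1 : Heis b).s = 0 := rfl
@[simp] lemma inv_x (g : Heis b) : (g⁻¹).x = -g.x := rfl
@[simp] lemma inv_y (g : Heis b) : (g⁻¹).y = -g.y := rfl
@[simp] lemma inv_s (g : Heis b) : (g⁻¹).s = -g.s + g.x ⬝ᵥ g.y := rfl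

instance : Group (Heis b) := Group.ofLeftAxioms
  (by
    intro g h k
    ext i
    · simp [add_assoc]
    · simp [add_assoc]
    · simp only [mul_s, mul_x, mul_y, add_dotProduct, dotProduct_add]; ring)
  (by
    intro g
    ext i
    · simp
    · simp
    · simp)
  (by
    intro g
    ext i
    · simpa using CharTwo.add_self_eq_zero (g.x i)
    · simpa using CharTwo.add_self_eq_zero (g.y i)
    · simp only [mul_s, inv_s, inv_x, one_s, neg_dotProduct]; ring)

/-- central elements -/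
def Z (s : ZMod 2) : Heis b := ⟨0, 0, s⟩

@[simp] lemma Z_x (s : ZMod 2) : (Z s : Heis b).x = 0 := rfl
@[simp] lemma Z_y (s : ZMod 2) : (Z s : Heis b).y = 0 := rfl
@[simp] lemma Z_s (s : ZMod 2) : (Z s : Heis b).s = s := rfl

lemma Z_comm (s : ZMod 2) (g : Heis b) : Z s * g = g * Z s := by
  ext i
  · simp
  · simp
  · simp [add_comm]

lemma Z_add (s s' : ZMod 2) : (Z (s + s') : Heis b) = Z s * Z s' := by
  ext i <;> simp

lemma Z_zero : (Z 0 : Heis b) = 1 := rfl

lemma Z_inv (s : ZMod 2) : (Z s : Heis b)⁻¹ = Z (-s) := by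
  ext i <;> simp

lemma comm_eq (g h : Heis b) : ⁅g, h⁆ = Z (g.x ⬝ᵥ h.y - h.x ⬝ᵥ g.y) := by
  rw [commutatorElement_def]
  ext i
  · simpa using CharTwo.add_self_eq_zero (h.x i)
  · simpa using CharTwo.add_self_eq_zero (h.y i)
  · simp only [mul_s, mul_x, mul_y, inv_s, inv_x, inv_y, Z_s, add_dotProduct, dotProduct_add,
      neg_dotProduct, dotProduct_neg]
    ring

/-- the elements `(v, 0, 0)` -/
def E (v : Fin b → ZMod 2) : Heis b := ⟨v, 0, 0⟩

/-- the elements `(0, v, 0)` -/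
def F (v : Fin b → ZMod 2) : Heis b := ⟨0, v, 0⟩

@[simp] lemma E_x (v : Fin b → ZMod 2) : (E v).x = v := rfl
@[simp] lemma E_y (v : Fin b → ZMod 2) : (E v).y = 0 := rfl
@[simp] lemma F_x (v : Fin b → ZMod 2) : (F v).x = 0 := rfl
@[simp] lemma F_y (v : Fin b → ZMod 2) : (F v).y = v := rfl

lemma card_heis : Nat.card (Heis b) = 2 ^ (2 * b + 1) := by
  have e : Heis b ≃ (Fin b → ZMod 2) × (Fin b → ZMod 2) × ZMod 2 :=
    { toFun := fun g => (g.x, g.y, g.s)
      invFun := fun p => ⟨p.1, p.2.1, p.2.2⟩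
      left_inv := fun g => rfl
      right_inv := fun p => rfl }
  rw [Nat.card_congr e, Nat.card_prod, Nat.card_prod, Nat.card_fun]
  simp only [Nat.card_eq_fintype_card, Fintype.card_fin, ZMod.card]
  ring

instance : Finite (Heis b) := Nat.finite_of_card_ne_zero (by rw [card_heis]; positivity)

lemma prod_Z {α : Type} (l : List α) (s : α → ZMod 2) (g : α → Heis b) :
    (l.map (fun j => Z (s j) * g j)).prod = Z ((l.map s).sum) * (l.map g).prod := by
  induction l with
  | nil => simp [Z_zero]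
  | cons a l ih =>
    rw [List.map_cons, List.prod_cons, List.map_cons, List.sum_cons, List.map_cons, List.prod_cons,
      ih, Z_add]
    have := Z_comm ((l.map s).sum) (g a)
    calc Z (s a) * g a * (Z (List.map s l).sum * (List.map g l).prod)
        = Z (s a) * (g a * Z (List.map s l).sum) * (List.map g l).prod := by group
      _ = Z (s a) * (Z (List.map s l).sum * g a) * (List.map g l).prod := by rw [this]
      _ = _ := by group

lemma tr_sub {n m : Type} [Fintype n] [Fintype m] (M : Matrix m m (ZMod 2)) (e : n ≃ m) :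
    (M.submatrix e e).trace = M.trace :=
  Equiv.sum_comp e (fun i => M i i)

lemma exists_matrix (hb : 2 ≤ b) : ∃ M N : Matrix (Fin b) (Fin b) (ZMod 2),
    N * M = 1 ∧ M.trace = 1 ∧ N.trace = 1 := by
  rcases Nat.even_or_odd b with h | h
  · obtain ⟨m, rfl⟩ : ∃ m, b = 2 + m := ⟨b - 2, by omega⟩
    have hm : Even m := by
      rcases h with ⟨r, hr⟩
      exact ⟨r - 1, by omega⟩
    have hm0 : (m : ZMod 2) = 0 := (ZMod.natCast_eq_zero_iff_even).2 hm
    let e : Fin (2 + m) ≃ Fin 2 ⊕ Fin m := finSumFinEquiv.symm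
    refine ⟨(fromBlocks !![1, 1; 1, 0] 0 0 1).submatrix e e,
      (fromBlocks !![0, 1; 1, 1] 0 0 1).submatrix e e, ?_, ?_, ?_⟩
    · rw [submatrix_mul_equiv, fromBlocks_multiply]
      have h1 : (!![0, 1; 1, 1] : Matrix (Fin 2) (Fin 2) (ZMod 2)) * !![1, 1; 1, 0] = 1 := by
        decide
      simp only [h1, Matrix.mul_zero, Matrix.zero_mul, add_zero, Matrix.mul_one, zero_add,
        fromBlocks_one]
      exact submatrix_one_equiv e
    · rw [tr_sub, trace, Fintype.sum_sum_type]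
      simp [Fin.sum_univ_two, hm0]
    · rw [tr_sub, trace, Fintype.sum_sum_type]
      simp [Fin.sum_univ_two, hm0]
  · refine ⟨1, 1, Matrix.one_mul 1, ?_, ?_⟩ <;>
    · rw [trace_one, Fintype.card_fin]
      exact (ZMod.natCast_eq_one_iff_odd).2 h

end Pool.Agent.Q94.SB
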