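import Mathlib

set_option autoImplicit false

/-!
Tuples of elements of a finite group satisfying the conjugacy relations of the pure braid group on two
strands of a closed surface of genus `b`; the lower bound `2 ^ (2 b + 1)`.
-/

namespace Pool.Agent.Q94.SB

open Subgroup
open scoped commutatorElement

/-- tuples satisfying the conjugacy relations -/
structure Tup (b : ℕ) (G : Type) [Group G] where
  a : Fin b → G
  t : Fin b → G
  c : Fin b → G
  d : Fin b → G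
  z : G
  ac : ∀ j k, j < k → ⁅a j, c k⁆ = 1
  ac0 : ∀ j, ⁅a j, c j⁆ = 1
  ac' : ∀ j k, k < j → ⁅a j, c k⁆ = z⁻¹ * c k * (c j)⁻¹ * z * c j * (c k)⁻¹
  ad : ∀ j k, j < k → ⁅a j, d k⁆ = 1
  ad0 : ∀ j, ⁅a j, d j⁆ = z⁻¹
  ad' : ∀ j k, k < j → ⁅a j, d k⁆ = ⁅z⁻¹, d k⁆
  az : ∀ j, ⁅a j, z⁆ = ⁅(c j)⁻¹, z⁆
  tc : ∀ j k, j < k → ⁅t j, c k⁆ = 1
  tc0 : ∀ j, ⁅t j, c j⁆ = (d j)⁻¹ * z * d j
  tc' : ∀ j k, k < j → ⁅t j, c k⁆ = ⁅(d j)⁻¹, z⁆
  td : ∀ j k, j < k → ⁅t j, d k⁆ = 1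
  td0 : ∀ j, ⁅t j, d j⁆ = ⁅(d j)⁻¹, z⁆
  td' : ∀ j k, k < j → ⁅t j, d k⁆ =
    (d j)⁻¹ * z * d j * z⁻¹ * d k * z * (d j)⁻¹ * z⁻¹ * d j * (d k)⁻¹
  tz : ∀ j, ⁅t j, z⁆ = ⁅(d j)⁻¹, z⁆
  gen : closure (Set.range a ∪ Set.range t ∪ Set.range c ∪ Set.range d) = ⊤

variable {b : ℕ} {G : Type} [Group G]

/-- the centralizer of the elements `c k`, `d k` with `j ≤ k` -/
def Tup.C (T : Tup b G) (j : ℕ) : Subgroup G :=
  Subgroup.centralizer {x | ∃ k : Fin b, j ≤ k.val ∧ (x = T.c k ∨ x = T.d k)}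

lemma Tup.mem_C (T : Tup b G) (j : ℕ) (g : G) :
    g ∈ T.C j ↔ ∀ k : Fin b, j ≤ k.val → T.c k * g = g * T.c k ∧ T.d k * g = g * T.d k := by
  unfold Tup.C
  rw [Subgroup.mem_centralizer_iff]
  constructor
  · intro h k hk
    exact ⟨h _ ⟨k, hk, Or.inl rfl⟩, h _ ⟨k, hk, Or.inr rfl⟩⟩
  · rintro h x ⟨k, hk, rfl | rfl⟩
    · exact (h k hk).1
    · exact (h k hk).2

lemma comm_iff (x y : G) : ⁅x, y⁆ = 1 ↔ y * x = x * y := by
  rw [commutatorElement_eq_one_iff_mul_comm]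
  exact ⟨fun h => h.symm, fun h => h.symm⟩

lemma Tup.a_mem (T : Tup b G) (j : Fin b) (i : ℕ) (h : j.val < i) : T.a j ∈ T.C i := by
  rw [T.mem_C]
  intro k hk
  have hjk : j < k := by rw [Fin.lt_def]; omega
  exact ⟨(comm_iff _ _).1 (T.ac j k hjk), (comm_iff _ _).1 (T.ad j k hjk)⟩

lemma Tup.t_mem (T : Tup b G) (j : Fin b) (i : ℕ) (h : j.val < i) : T.t j ∈ T.C i := by
  rw [T.mem_C]
  intro k hk
  have hjk : j < k := by rw [Fin.lt_def]; omega
  exact ⟨(comm_iff _ _).1 (T.tc j k hjk), (comm_iff _ _).1 (T.td j k hjk)⟩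

lemma Tup.C_top (T : Tup b G) : T.C b = ⊤ := by
  rw [eq_top_iff]
  intro g _
  rw [T.mem_C]
  intro k hk
  exact absurd k.isLt (by omega)

/-- commuting with one element -/
def cen (x : G) : Subgroup G := Subgroup.centralizer {x}

lemma mem_cen (x g : G) : g ∈ cen x ↔ x * g = g * x := by
  unfold cen
  rw [Subgroup.mem_centralizer_iff]
  constructor
  · intro h; exact h x rfl
  · rintro h y rfl; exact h

lemma Tup.C_succ (T : Tup b G) (j : Fin b) :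
    T.C j.val = T.C (j.val + 1) ⊓ cen (T.c j) ⊓ cen (T.d j) := by
  ext g
  rw [Subgroup.mem_inf, Subgroup.mem_inf, mem_cen, mem_cen, T.mem_C, T.mem_C]
  constructor
  · intro h
    exact ⟨⟨fun k hk => h k (by omega), (h j le_rfl).1⟩, (h j le_rfl).2⟩
  · rintro ⟨⟨h1, h2⟩, h3⟩ k hk
    rcases Nat.eq_or_lt_of_le hk with h | h
    · have : j = k := Fin.ext h
      subst this
      exact ⟨h2, h3⟩
    · exact h1 k h

lemma Tup.C_succ' (T : Tup b G) (j : Fin b) :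
    T.C j.val = T.C (j.val + 1) ⊓ cen (T.d j) ⊓ cen (T.c j) := by
  rw [T.C_succ, inf_assoc, inf_assoc, inf_comm (cen (T.c j))]

lemma Tup.z_conj (T : Tup b G) (hz : T.z ≠ 1) (j : Fin b) : ⁅T.t j, T.c j⁆ ≠ 1 := by
  rw [T.tc0]
  intro h
  apply hz
  have : T.z = T.d j * ((T.d j)⁻¹ * T.z * T.d j) * (T.d j)⁻¹ := by group
  rw [this, h]; group

variable [Finite G]

lemma card_lt_two {H K : Subgroup G} (h : H ≤ K) {x : G} (hx : x ∈ K) (hx' : x ∉ H) :
    Nat.card H ∣ Nat.card K ∧ Nat.card H ≠ Nat.card K := by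
  refine ⟨Subgroup.card_dvd_of_le h, fun he => hx' ?_⟩
  have : H = K := Subgroup.eq_of_le_of_card_ge h he.ge
  rw [this]; exact hx

lemma two_mul_le {m n : ℕ} (hn : 0 < n) (h : m ∣ n ∧ m ≠ n) : 2 * m ≤ n := by
  obtain ⟨⟨q, rfl⟩, h2⟩ := h
  rcases q with _ | _ | q
  · simp at hn
  · simp at h2
  · nlinarith

/-- first step -/
lemma Tup.step1 (T : Tup b G) (hz : T.z ≠ 1) (j : Fin b) :
    let E := T.C (j.val + 1) ⊓ cen (T.c j)
    Nat.card E ∣ Nat.card (T.C (j.val + 1)) ∧ Nat.card E ≠ Nat.card (T.C (j.val + 1)) := by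
  intro E
  refine card_lt_two inf_le_left (x := T.t j) (T.t_mem j _ (by omega)) ?_
  intro h
  rw [Subgroup.mem_inf, mem_cen] at h
  exact T.z_conj hz j ((comm_iff _ _).2 h.2)

lemma Tup.step2 (T : Tup b G) (hz : T.z ≠ 1) (j : Fin b) :
    let E := T.C (j.val + 1) ⊓ cen (T.c j)
    Nat.card (T.C j.val) ∣ Nat.card E ∧ Nat.card (T.C j.val) ≠ Nat.card E := by
  intro E
  have hle : T.C j.val ≤ E := by rw [T.C_succ]; exact inf_le_left
  refine card_lt_two hle (x := T.a j) ?_ ?_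
  · rw [Subgroup.mem_inf, mem_cen]
    exact ⟨T.a_mem j _ (by omega), (comm_iff _ _).1 (T.ac0 j)⟩
  · intro h
    rw [T.C_succ, Subgroup.mem_inf, mem_cen] at h
    have := (comm_iff _ _).2 h.2
    rw [T.ad0] at this
    exact hz (inv_eq_one.1 this)

lemma Tup.four (T : Tup b G) (hz : T.z ≠ 1) (j : Fin b) :
    4 * Nat.card (T.C j.val) ≤ Nat.card (T.C (j.val + 1)) := by
  have h1 := two_mul_le Nat.card_pos (T.step1 hz j)
  have h2 := two_mul_le Nat.card_pos (T.step2 hz j)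
  omega

lemma Tup.chain (T : Tup b G) (hz : T.z ≠ 1) (j : ℕ) :
    ∀ i : ℕ, j + i ≤ b → 4 ^ i * Nat.card (T.C j) ≤ Nat.card (T.C (j + i)) := by
  intro i
  induction i with
  | zero => intro _; simp
  | succ i ih =>
    intro h
    have h1 := ih (by omega)
    have h2 := T.four hz ⟨j + i, by omega⟩
    simp only at h2
    have h3 : j + (i + 1) = j + i + 1 := by ring
    rw [h3, pow_succ]
    calc 4 ^ i * 4 * Nat.card (T.C j) = 4 * (4 ^ i * Nat.card (T.C j)) := by ring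
      _ ≤ 4 * Nat.card (T.C (j + i)) := Nat.mul_le_mul_left _ h1
      _ ≤ _ := h2

/-- the possible cardinalities in a chain with ratios at least two -/
def Q (i n : ℕ) : Prop := 2 ^ (i + 1) ≤ n ∨ n = 2 ^ i ∨ (1 ≤ i ∧ n = 3 * 2 ^ (i - 1))

lemma Q_step {i m n : ℕ} (h : Q i m) (hn : 0 < n) (hd : m ∣ n ∧ m ≠ n) : Q (i + 1) n := by
  obtain ⟨⟨q, rfl⟩, h2⟩ := hd
  have hq : 2 ≤ q := by
    rcases q with _ | _ | q
    · simp at hn
    · simp at h2
    · omega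
  have hp : 0 < 2 ^ i := by positivity
  rcases h with h | h | ⟨hi, h⟩
  · left
    calc 2 ^ (i + 1 + 1) = 2 ^ (i + 1) * 2 := by rw [pow_succ]
      _ ≤ m * q := Nat.mul_le_mul h hq
  · subst h
    rcases Nat.lt_or_ge q 4 with h4 | h4
    · interval_cases q
      · right; left; rw [pow_succ]
      · right; right; refine ⟨by omega, ?_⟩; simp [mul_comm]
    · left
      calc 2 ^ (i + 1 + 1) = 2 ^ i * 4 := by rw [pow_succ, pow_succ]; ring
        _ ≤ 2 ^ i * q := Nat.mul_le_mul_left _ h4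
  · obtain ⟨i, rfl⟩ : ∃ i', i = i' + 1 := ⟨i - 1, by omega⟩
    simp only [Nat.add_sub_cancel] at h ⊢
    subst h
    rcases Nat.lt_or_ge q 3 with h3 | h3
    · interval_cases q
      right; right; refine ⟨by omega, ?_⟩
      simp only [Nat.add_sub_cancel]; rw [pow_succ]; ring
    · left
      calc 2 ^ (i + 1 + 1 + 1) = 8 * 2 ^ i := by rw [pow_succ, pow_succ, pow_succ]; ring
        _ ≤ 9 * 2 ^ i := by omega
        _ = 3 * 2 ^ i * 3 := by ring
        _ ≤ 3 * 2 ^ i * q := Nat.mul_le_mul_left _ h3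

lemma Tup.Q_chain (T : Tup b G) (hz : T.z ≠ 1) (h0 : T.C 0 = ⊥) :
    ∀ i : ℕ, i ≤ b → Q (2 * i) (Nat.card (T.C i)) := by
  intro i
  induction i with
  | zero => intro _; right; left; rw [h0]; simp
  | succ i ih =>
    intro h
    have h1 := ih (by omega)
    have h2 := Q_step h1 Nat.card_pos (T.step2 hz ⟨i, by omega⟩)
    exact Q_step h2 Nat.card_pos (T.step1 hz ⟨i, by omega⟩)

end Pool.Agent.Q94.SB
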