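import Pool.Agent.Q94.SB.Case3

set_option autoImplicit false

/-!
The lower bound `2 ^ (2 b + 1)` for the order of a finite group with a tuple.
-/

namespace Pool.Agent.Q94.SB

open Subgroup Equiv
open scoped commutatorElement

variable {b : ℕ} {G : Type} [Group G]

/-- the set of all generators maps into a subgroup: then everything does -/
lemma Tup.all_mem (T : Tup b G) (H : Subgroup G) (ha : ∀ j, T.a j ∈ H) (ht : ∀ j, T.t j ∈ H)
    (hc : ∀ j, T.c j ∈ H) (hd : ∀ j, T.d j ∈ H) (g : G) : g ∈ H := by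
  have h : closure (Set.range T.a ∪ Set.range T.t ∪ Set.range T.c ∪ Set.range T.d) ≤ H := by
    rw [Subgroup.closure_le]
    rintro x (((⟨j, rfl⟩ | ⟨j, rfl⟩) | ⟨j, rfl⟩) | ⟨j, rfl⟩)
    · exact ha j
    · exact ht j
    · exact hc j
    · exact hd j
  rw [T.gen] at h
  exact h (Subgroup.mem_top g)

/-- if `z` is in the kernel of `f`, the images of the two strands commute -/
lemma Tup.comm_images {M : Type} [Group M] (T : Tup b G) (f : G →* M) (hz : f T.z = 1) (j k : Fin b) :
    f (T.a j) * f (T.c k) = f (T.c k) * f (T.a j) ∧ f (T.a j) * f (T.d k) = f (T.d k) * f (T.a j) ∧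
    f (T.t j) * f (T.c k) = f (T.c k) * f (T.t j) ∧ f (T.t j) * f (T.d k) = f (T.d k) * f (T.t j) := by
  have key : ∀ x y : G, f ⁅x, y⁆ = 1 → f x * f y = f y * f x := by
    intro x y h
    rw [map_commutatorElement] at h
    exact commutatorElement_eq_one_iff_mul_comm.1 h
  rcases lt_trichotomy j k with h | h | h
  · exact ⟨key _ _ (by rw [T.ac j k h, map_one]), key _ _ (by rw [T.ad j k h, map_one]),
      key _ _ (by rw [T.tc j k h, map_one]), key _ _ (by rw [T.td j k h, map_one])⟩
  · subst h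
    refine ⟨key _ _ (by rw [T.ac0 j, map_one]), key _ _ (by rw [T.ad0 j, map_inv, hz, inv_one]),
      key _ _ ?_, key _ _ ?_⟩
    · rw [T.tc0 j, map_mul, map_mul, hz, mul_one, map_inv, inv_mul_cancel]
    · rw [T.td0 j, map_commutatorElement, hz, commutatorElement_one_right]
  · refine ⟨key _ _ ?_, key _ _ ?_, key _ _ ?_, key _ _ ?_⟩
    · rw [T.ac' j k h]; simp only [map_mul, map_inv, hz]; group
    · rw [T.ad' j k h, map_commutatorElement, map_inv, hz, inv_one, commutatorElement_one_left]
    · rw [T.tc' j k h, map_commutatorElement, hz, commutatorElement_one_right]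
    · rw [T.td' j k h]; simp only [map_mul, map_inv, hz]; group

variable [Finite G]

lemma card_mul_le {W E K : Subgroup G} (hW : W ≤ K) (hE : E ≤ K) (h : Disjoint W E) :
    Nat.card W * Nat.card E ≤ Nat.card K := by
  rw [← Nat.card_prod]
  refine Nat.card_le_card_of_injective
    (fun g : W × E => (⟨(g.1 : G) * (g.2 : G), K.mul_mem (hW g.1.2) (hE g.2.2)⟩ : K)) ?_
  intro x y hxy
  have := congrArg (fun u : K => (u : G)) hxy
  exact Subgroup.mul_injective_of_disjoint h this

theorem Tup.case3 (T : Tup b G) (hb : 2 ≤ b) (hz : T.z ≠ 1)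
    (mono : ∀ N : Subgroup G, N.Normal → N ≠ ⊥ → T.z ∈ N) (h0 : T.C 0 = ⊥)
    (hcard : Nat.card G = 3 * 2 ^ (2 * b - 1)) : 2 * 4 ^ b ≤ Nat.card G := by
  classical
  obtain ⟨f, hp, hne⟩ := exists_hom (2 * b - 1) (by omega) hcard
  set O := f.ker with hO
  have hOn : O.Normal := by rw [hO]; infer_instance
  set W := WW O with hW
  have hWn : W.Normal := WW_normal O hOn
  have hWne : W ≠ ⊥ := WW_ne_bot O hp hne
  have hzW : T.z ∈ W := mono W hWn hWne
  obtain ⟨hzO, hzc, hzz⟩ := (mem_WW O T.z).1 hzW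
  have hfz : f T.z = 1 := hzO
  have hC0 : ∀ g : G, (∀ k, T.c k * g = g * T.c k ∧ T.d k * g = g * T.d k) → g = 1 := by
    intro g hg
    have : g ∈ T.C 0 := (T.mem_C 0 g).2 fun k _ => hg k
    rwa [h0, Subgroup.mem_bot] at this
  have hOz : ∀ o : G, f o = 1 → o * T.z = T.z * o := fun o ho => hzc o ho
  -- some `c` or `d` is outside `O`
  have hX : ∃ k, f (T.c k) ≠ 1 ∨ f (T.d k) ≠ 1 := by
    by_contra hcon
    push Not at hcon
    exact hz (hC0 T.z fun k => ⟨hOz _ (hcon k).1, hOz _ (hcon k).2⟩)
  have hY : ∃ k, f (T.a k) ≠ 1 ∨ f (T.t k) ≠ 1 := by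
    by_contra hcon
    push Not at hcon
    apply hz
    apply hC0
    intro k
    have h1 := T.az k
    have h2 := T.tz k
    rw [(comm_iff _ _).2 (hOz _ (hcon k).1).symm] at h1
    rw [(comm_iff _ _).2 (hOz _ (hcon k).2).symm] at h2
    have h3 := (comm_iff _ _).1 h1.symm
    have h4 := (comm_iff _ _).1 h2.symm
    constructor
    · have : T.c k * (T.z * (T.c k)⁻¹) * T.c k = T.c k * ((T.c k)⁻¹ * T.z) * T.c k := by rw [h3]
      simpa [mul_assoc] using this
    · have : T.d k * (T.z * (T.d k)⁻¹) * T.d k = T.d k * ((T.d k)⁻¹ * T.z) * T.d k := by rw [h4]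
      simpa [mul_assoc] using this
  -- signs
  let X : Set (Perm (Fin 3)) := {p | ∃ k, p = f (T.c k) ∨ p = f (T.d k)}
  let Y : Set (Perm (Fin 3)) := {p | ∃ k, p = f (T.a k) ∨ p = f (T.t k)}
  have hcomm : ∀ p ∈ X, ∀ q ∈ Y, p * q = q * p := by
    rintro p ⟨k, hk⟩ q ⟨j, hj⟩
    obtain ⟨h1, h2, h3, h4⟩ := T.comm_images f hfz j k
    rcases hk with rfl | rfl <;> rcases hj with rfl | rfl
    · exact h1.symm
    · exact h3.symm
    · exact h2.symm
    · exact h4.symm
  have hX' : ∃ p ∈ X, p ≠ 1 := by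
    obtain ⟨k, hk | hk⟩ := hX
    · exact ⟨_, ⟨k, Or.inl rfl⟩, hk⟩
    · exact ⟨_, ⟨k, Or.inr rfl⟩, hk⟩
  have hY' : ∃ p ∈ Y, p ≠ 1 := by
    obtain ⟨k, hk | hk⟩ := hY
    · exact ⟨_, ⟨k, Or.inl rfl⟩, hk⟩
    · exact ⟨_, ⟨k, Or.inr rfl⟩, hk⟩
  have hsign : ∀ g : G, Perm.sign (f g) = 1 := by
    rcases signs X Y hcomm hX' hY' with h | ⟨p, hp2, h⟩
    · intro g
      have : g ∈ (Perm.sign.comp f).ker := T.all_mem _
        (fun j => h _ (Or.inr ⟨j, Or.inl rfl⟩)) (fun j => h _ (Or.inr ⟨j, Or.inr rfl⟩))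
        (fun j => h _ (Or.inl ⟨j, Or.inl rfl⟩)) (fun j => h _ (Or.inl ⟨j, Or.inr rfl⟩)) g
      exact this
    · exfalso
      -- the range of `f` has at most two elements
      have hall : ∀ g : G, f g = 1 ∨ f g = p := by
        intro g
        have : g ∈ (Subgroup.zpowers p).comap f := by
          have hm : ∀ q : Perm (Fin 3), q ∈ X ∪ Y → q ∈ Subgroup.zpowers p := by
            intro q hq
            rcases h q hq with h | h
            · rw [h]; exact Subgroup.one_mem _
            · rw [h]; exact Subgroup.mem_zpowers p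
          exact T.all_mem _
            (fun j => hm _ (Or.inr ⟨j, Or.inl rfl⟩)) (fun j => hm _ (Or.inr ⟨j, Or.inr rfl⟩))
            (fun j => hm _ (Or.inl ⟨j, Or.inl rfl⟩)) (fun j => hm _ (Or.inl ⟨j, Or.inr rfl⟩)) g
        obtain ⟨n, hn⟩ := Subgroup.mem_zpowers_iff.1 (Subgroup.mem_comap.1 this)
        rcases Int.even_or_odd' n with ⟨i, rfl | rfl⟩
        · left
          rw [← hn, zpow_mul]
          have : p ^ (2 : ℤ) = 1 := by
            rw [show (2 : ℤ) = ((2 : ℕ) : ℤ) by norm_num, zpow_natCast, pow_two, hp2]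
          rw [this, one_zpow]
        · right
          rw [← hn, zpow_add, zpow_mul]
          have : p ^ (2 : ℤ) = 1 := by
            rw [show (2 : ℤ) = ((2 : ℕ) : ℤ) by norm_num, zpow_natCast, pow_two, hp2]
          rw [this, one_zpow, one_mul, zpow_one]
      have hr : Nat.card f.range ≤ 2 := by
        have hsub : (f.range : Set (Perm (Fin 3))) ⊆ ({1, p} : Finset (Perm (Fin 3))) := by
          rintro _ ⟨g, rfl⟩
          rcases hall g with h | h
          · rw [h]; simp
          · rw [h]; simp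
        have h1 := Set.ncard_le_ncard hsub (Finset.finite_toSet _)
        rw [Set.ncard_coe_finset] at h1
        have h2 : Nat.card f.range = (f.range : Set (Perm (Fin 3))).ncard := rfl
        rw [h2]
        exact h1.trans Finset.card_le_two
      have hmul : Nat.card f.range * Nat.card O = Nat.card G := by
        have h1 := Subgroup.card_mul_index f.ker
        rw [Subgroup.index_ker] at h1
        rw [mul_comm]; exact h1
      obtain ⟨n, hn⟩ := IsPGroup.iff_card.1 hp
      rw [hcard] at hmul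
      have h3 : 3 ∣ Nat.card f.range * Nat.card O := by rw [hmul]; exact dvd_mul_right _ _
      rcases (Nat.prime_three.dvd_mul).1 h3 with h | h
      · have := Nat.le_of_dvd Nat.card_pos h
        omega
      · rw [hn] at h
        have := Nat.prime_three.dvd_of_dvd_pow h
        omega
  -- an element outside `O` has no nontrivial fixed point in `W`
  have hfix : ∀ g : G, f g ≠ 1 → ∀ w ∈ W, g * w = w * g → w = 1 := by
    intro g hg w hw hgw
    obtain ⟨-, hwc, -⟩ := (mem_WW O w).1 hw
    have hcen : ∀ x : G, x * w = w * x := by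
      intro x
      rcases perm_aux2 (f g) (f x) (hsign g) (hsign x) hg with h | h | h
      · exact hwc x h
      · have h1 : g⁻¹ * x ∈ O := by
          show f (g⁻¹ * x) = 1
          rw [map_mul, map_inv, h, inv_mul_cancel]
        have h2 := hwc _ h1
        calc x * w = g * (g⁻¹ * x * w) := by group
          _ = g * (w * (g⁻¹ * x)) := by rw [h2]
          _ = (g * w) * (g⁻¹ * x) := by group
          _ = (w * g) * (g⁻¹ * x) := by rw [hgw]
          _ = w * x := by group
      · have h1 : (g * g)⁻¹ * x ∈ O := by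
          show f ((g * g)⁻¹ * x) = 1
          rw [map_mul, map_inv, map_mul, h, inv_mul_cancel]
        have h2 := hwc _ h1
        calc x * w = (g * g) * ((g * g)⁻¹ * x * w) := by group
          _ = (g * g) * (w * ((g * g)⁻¹ * x)) := by rw [h2]
          _ = g * (g * w) * ((g * g)⁻¹ * x) := by group
          _ = g * (w * g) * ((g * g)⁻¹ * x) := by rw [hgw]
          _ = (g * w) * g * ((g * g)⁻¹ * x) := by group
          _ = (w * g) * g * ((g * g)⁻¹ * x) := by rw [hgw]
          _ = w * x := by group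
    exact hC0 w fun k => ⟨hcen _, hcen _⟩
  -- `W` has at least four elements
  have hW4 : 4 ≤ Nat.card W := by
    obtain ⟨g, hg⟩ : ∃ g, f g ≠ 1 := by
      obtain ⟨k, hk | hk⟩ := hX
      · exact ⟨_, hk⟩
      · exact ⟨_, hk⟩
    have hz' : g * T.z * g⁻¹ ∈ W := hWn.conj_mem _ hzW g
    have hne1 : g * T.z * g⁻¹ ≠ T.z := by
      intro h
      apply hz
      apply hfix g hg T.z hzW
      calc g * T.z = g * T.z * g⁻¹ * g := by group
        _ = T.z * g := by rw [h]
    have hne2 : g * T.z * g⁻¹ ≠ 1 := by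
      intro h
      apply hz
      have : T.z = g⁻¹ * (g * T.z * g⁻¹) * g := by group
      rw [this, h]; group
    have h2 : 2 ∣ Nat.card W := by
      have h1 : orderOf (⟨T.z, hzW⟩ : W) = 2 := by
        rw [orderOf_eq_prime_iff]
        refine ⟨?_, ?_⟩
        · rw [pow_two]; ext; exact hzz
        · intro h
          exact hz (congrArg (fun u : W => (u : G)) h)
      rw [← h1]; exact orderOf_dvd_natCard _
    have h3 : 3 ≤ Nat.card W := by
      have hinj : Function.Injective
          (![(⟨1, W.one_mem⟩ : W), ⟨T.z, hzW⟩, ⟨g * T.z * g⁻¹, hz'⟩] : Fin 3 → W) := by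
        intro i j hij
        fin_cases i <;> fin_cases j <;> simp [Subtype.ext_iff] at hij ⊢ <;>
          first
            | exact hz hij
            | exact hz hij.symm
            | exact hne1 hij
            | exact hne1 hij.symm
            | exact hne2 hij
            | exact hne2 hij.symm
      have := Nat.card_le_card_of_injective _ hinj
      simpa using this
    omega
  -- the largest handle with an element outside `O`
  obtain ⟨k, hk, hmax⟩ : ∃ k : Fin b, (f (T.c k) ≠ 1 ∨ f (T.d k) ≠ 1) ∧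
      ∀ i : Fin b, k < i → f (T.c i) = 1 ∧ f (T.d i) = 1 := by
    obtain ⟨k0, hk0⟩ := hX
    let F : Finset (Fin b) := Finset.univ.filter fun k => f (T.c k) ≠ 1 ∨ f (T.d k) ≠ 1
    have hF : F.Nonempty := ⟨k0, by simp [F]; tauto⟩
    refine ⟨F.max' hF, ?_, ?_⟩
    · have := F.max'_mem hF
      simpa [F] using this
    · intro i hi
      by_contra hcon
      have : i ∈ F := by
        simp only [F, Finset.mem_filter, Finset.mem_univ, true_and]
        by_contra h2
        push Not at h2
        exact hcon h2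
      exact absurd (F.le_max' i this) (not_le.2 hi)
  have hWC : W ≤ T.C (k.val + 1) := by
    intro w hw
    obtain ⟨-, hwc, -⟩ := (mem_WW O w).1 hw
    rw [T.mem_C]
    intro i hi
    have hi' : k < i := by rw [Fin.lt_def]; omega
    exact ⟨hwc _ (hmax i hi').1, hwc _ (hmax i hi').2⟩
  have h8 : 8 * Nat.card (T.C k.val) ≤ Nat.card (T.C (k.val + 1)) := by
    by_cases hck : f (T.c k) = 1
    · have hdk : f (T.d k) ≠ 1 := hk.resolve_left (by simp [hck])
      set E := T.C (k.val + 1) ⊓ cen (T.d k) with hE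
      have hdis : Disjoint W E := by
        rw [Subgroup.disjoint_def]
        intro w hw hwE
        exact hfix _ hdk w hw ((mem_cen _ _).1 (Subgroup.mem_inf.1 hwE).2)
      have h1 := card_mul_le hWC (inf_le_left : E ≤ _) hdis
      have h2 : 2 * Nat.card (T.C k.val) ≤ Nat.card E := by
        apply two_mul_le Nat.card_pos
        have hle : T.C k.val ≤ E := by rw [T.C_succ']; exact inf_le_left
        have hn : (T.d k)⁻¹ * T.z⁻¹ * T.d k ∈ W := by
          have := hWn.conj_mem _ (W.inv_mem hzW) (T.d k)⁻¹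
          simpa using this
        refine card_lt_two hle (x := (T.d k)⁻¹ * T.z⁻¹ * T.d k * T.t k) ?_ ?_
        · rw [Subgroup.mem_inf]
          refine ⟨Subgroup.mul_mem _ (hWC hn) (T.t_mem k _ (by omega)), ?_⟩
          rw [mem_cen]
          have h3 := T.td0 k
          rw [commutatorElement_def, commutatorElement_def] at h3
          have h4 : T.t k * T.d k = (T.d k)⁻¹ * T.z * T.d k * T.z⁻¹ * T.d k * T.t k := by
            have : T.t k * T.d k = (T.t k * T.d k * (T.t k)⁻¹ * (T.d k)⁻¹) * T.d k * T.t k := by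
              group
            rw [this, h3]; group
          symm
          calc (T.d k)⁻¹ * T.z⁻¹ * T.d k * T.t k * T.d k
              = (T.d k)⁻¹ * T.z⁻¹ * T.d k * (T.t k * T.d k) := by group
            _ = (T.d k)⁻¹ * T.z⁻¹ * T.d k *
                ((T.d k)⁻¹ * T.z * T.d k * T.z⁻¹ * T.d k * T.t k) := by rw [h4]
            _ = T.z⁻¹ * T.d k * T.t k := by group
            _ = T.d k * ((T.d k)⁻¹ * T.z⁻¹ * T.d k * T.t k) := by group
        · intro h
          rw [T.C_succ', Subgroup.mem_inf, mem_cen] at h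
          have h3 := h.2
          have h4 : T.c k * ((T.d k)⁻¹ * T.z⁻¹ * T.d k) = (T.d k)⁻¹ * T.z⁻¹ * T.d k * T.c k :=
            ((mem_WW O _).1 hn).2.1 _ hck
          apply T.z_conj hz k
          rw [comm_iff]
          have h5 : (T.d k)⁻¹ * T.z⁻¹ * T.d k * (T.c k * T.t k) =
              (T.d k)⁻¹ * T.z⁻¹ * T.d k * (T.t k * T.c k) := by
            calc (T.d k)⁻¹ * T.z⁻¹ * T.d k * (T.c k * T.t k)
                = ((T.d k)⁻¹ * T.z⁻¹ * T.d k * T.c k) * T.t k := by group
              _ = T.c k * ((T.d k)⁻¹ * T.z⁻¹ * T.d k) * T.t k := by rw [h4]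
              _ = T.c k * ((T.d k)⁻¹ * T.z⁻¹ * T.d k * T.t k) := by group
              _ = (T.d k)⁻¹ * T.z⁻¹ * T.d k * T.t k * T.c k := h3
              _ = _ := by group
          exact mul_left_cancel h5
      calc 8 * Nat.card (T.C k.val) = 4 * (2 * Nat.card (T.C k.val)) := by ring
        _ ≤ Nat.card W * Nat.card E := Nat.mul_le_mul hW4 h2
        _ ≤ _ := h1
    · set E := T.C (k.val + 1) ⊓ cen (T.c k) with hE
      have hdis : Disjoint W E := by
        rw [Subgroup.disjoint_def]
        intro w hw hwE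
        exact hfix _ hck w hw ((mem_cen _ _).1 (Subgroup.mem_inf.1 hwE).2)
      have h1 := card_mul_le hWC (inf_le_left : E ≤ _) hdis
      have h2 := two_mul_le Nat.card_pos (T.step2 hz k)
      calc 8 * Nat.card (T.C k.val) = 4 * (2 * Nat.card (T.C k.val)) := by ring
        _ ≤ Nat.card W * Nat.card E := Nat.mul_le_mul hW4 h2
        _ ≤ _ := h1
  have h1 := T.chain hz 0 k.val (by omega)
  have h2 := T.chain hz (k.val + 1) (b - (k.val + 1)) (by omega)
  rw [show k.val + 1 + (b - (k.val + 1)) = b by omega, T.C_top] at h2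
  rw [zero_add, h0] at h1
  have h3 : Nat.card (⊥ : Subgroup G) = 1 := by simp
  have h4 : Nat.card (⊤ : Subgroup G) = Nat.card G := Subgroup.card_top
  rw [h3, mul_one] at h1
  rw [h4] at h2
  calc 2 * 4 ^ b = 4 ^ (b - (k.val + 1)) * (8 * 4 ^ k.val) := by
        have hb' : b = (b - (k.val + 1)) + k.val + 1 := by omega
        conv_lhs => rw [hb']
        rw [pow_succ, pow_add]; ring
    _ ≤ 4 ^ (b - (k.val + 1)) * (8 * Nat.card (T.C k.val)) :=
        Nat.mul_le_mul_left _ (Nat.mul_le_mul_left _ h1)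
    _ ≤ 4 ^ (b - (k.val + 1)) * Nat.card (T.C (k.val + 1)) := Nat.mul_le_mul_left _ h8
    _ ≤ Nat.card G := h2

end Pool.Agent.Q94.SB
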